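import Pool.Agent.H75.PRP.Stmts

set_option autoImplicit false

/-! KHL: the lower Khintchine inequality with the constant of Littlewood. -/

namespace Pool.PRP

open Finset

theorem KHL_sg_sq (b : Bool) : sg b ^ 2 = 1 := by
  cases b <;> norm_num [sg]

theorem KHL_flip {n : ℕ} (i : Fin n) (g : (Fin n → Bool) → ℝ)
    (hg : ∀ e, g (Function.update e i (!e i)) = g e) :
    ∑ e : Fin n → Bool, sg (e i) * g e = 0 := by
  have hinv : Function.Involutive (fun e : Fin n → Bool => Function.update e i (!e i)) := by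
    intro e
    funext j
    by_cases hj : j = i
    · subst hj; simp
    · simp [Function.update_of_ne hj]
  have h1 : ∑ e : Fin n → Bool, sg (e i) * g e =
      ∑ e : Fin n → Bool, sg ((Function.update e i (!e i)) i) * g (Function.update e i (!e i)) :=
    (Equiv.sum_comp hinv.toPerm (fun e : Fin n → Bool => sg (e i) * g e)).symm
  have h2 : ∀ e : Fin n → Bool, sg ((Function.update e i (!e i)) i) *
      g (Function.update e i (!e i)) = -(sg (e i) * g e) := by
    intro e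
    rw [hg e, Function.update_self]
    cases e i <;> simp [sg]
  rw [Finset.sum_congr rfl (fun e _ => h2 e), Finset.sum_neg_distrib] at h1
  linarith

theorem KHL_indep {n : ℕ} (i : Fin n) (S : Finset (Fin n)) (hi : i ∉ S) (a : Fin n → ℝ)
    (e : Fin n → Bool) (b : Bool) :
    ∑ j ∈ S, sg (Function.update e i b j) * a j = ∑ j ∈ S, sg (e j) * a j := by
  refine Finset.sum_congr rfl fun j hj => ?_
  have hne : j ≠ i := by
    rintro rfl
    exact hi hj
  rw [Function.update_of_ne hne]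

theorem KHL_moments (n : ℕ) (a : Fin n → ℝ) (S : Finset (Fin n)) :
    (∑ e : Fin n → Bool, (∑ i ∈ S, sg (e i) * a i) ^ 2 = 2 ^ n * ∑ i ∈ S, a i ^ 2) ∧
    (∑ e : Fin n → Bool, (∑ i ∈ S, sg (e i) * a i) ^ 4 ≤ 2 ^ n * (3 * (∑ i ∈ S, a i ^ 2) ^ 2)) := by
  classical
  induction S using Finset.induction_on with
  | empty => simp
  | insert i S hi ih =>
    obtain ⟨h2, h4⟩ := ih
    set X : (Fin n → Bool) → ℝ := fun e => ∑ j ∈ S, sg (e j) * a j with hX
    have hXi : ∀ e, X (Function.update e i (!e i)) = X e := fun e => KHL_indep i S hi a e _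
    have f1 : ∑ e : Fin n → Bool, sg (e i) * X e = 0 := KHL_flip i X hXi
    have f3 : ∑ e : Fin n → Bool, sg (e i) * X e ^ 3 = 0 :=
      KHL_flip i (fun e => X e ^ 3) (fun e => by simp only [hXi])
    have hcard : ∑ _e : Fin n → Bool, (1 : ℝ) = 2 ^ n := by simp
    constructor
    · have e1 : ∀ e : Fin n → Bool, (∑ j ∈ insert i S, sg (e j) * a j) ^ 2 =
          X e ^ 2 + 2 * a i * (sg (e i) * X e) + a i ^ 2 * 1 := by
        intro e
        rw [Finset.sum_insert hi]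
        have := KHL_sg_sq (e i)
        show (sg (e i) * a i + X e) ^ 2 = _
        linear_combination (a i ^ 2) * this
      rw [Finset.sum_congr rfl (fun e _ => e1 e), Finset.sum_add_distrib, Finset.sum_add_distrib,
        ← Finset.mul_sum, ← Finset.mul_sum, f1, hcard, Finset.sum_insert hi]
      have h2' : ∑ e : Fin n → Bool, X e ^ 2 = 2 ^ n * ∑ i ∈ S, a i ^ 2 := h2
      rw [h2']
      ring
    · have e1 : ∀ e : Fin n → Bool, (∑ j ∈ insert i S, sg (e j) * a j) ^ 4 =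
          X e ^ 4 + 4 * a i * (sg (e i) * X e ^ 3) + 6 * a i ^ 2 * X e ^ 2 +
            4 * a i ^ 3 * (sg (e i) * X e) + a i ^ 4 * 1 := by
        intro e
        rw [Finset.sum_insert hi]
        have := KHL_sg_sq (e i)
        show (sg (e i) * a i + X e) ^ 4 = _
        have h3 : sg (e i) ^ 3 = sg (e i) := by rw [pow_succ, this, one_mul]
        have h5 : sg (e i) ^ 4 = 1 := by
          rw [show (4 : ℕ) = 2 * 2 from rfl, pow_mul, this, one_pow]
        linear_combination (6 * a i ^ 2 * X e ^ 2) * this + (4 * a i ^ 3 * X e) * h3 +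
          (a i ^ 4) * h5
      rw [Finset.sum_congr rfl (fun e _ => e1 e), Finset.sum_add_distrib, Finset.sum_add_distrib,
        Finset.sum_add_distrib, Finset.sum_add_distrib,
        ← Finset.mul_sum, ← Finset.mul_sum, ← Finset.mul_sum, ← Finset.mul_sum, f1, f3, hcard,
        Finset.sum_insert hi]
      have h2' : ∑ e : Fin n → Bool, X e ^ 2 = 2 ^ n * ∑ i ∈ S, a i ^ 2 := h2
      have h4' : ∑ e : Fin n → Bool, X e ^ 4 ≤ 2 ^ n * (3 * (∑ i ∈ S, a i ^ 2) ^ 2) := h4
      rw [h2']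
      have hp : (0 : ℝ) < 2 ^ n := by positivity
      have h6 : (0 : ℝ) ≤ 2 ^ n * a i ^ 4 := by positivity
      nlinarith

theorem KHL_pt (x s : ℝ) (hs : 0 < s) :
    Real.sqrt 3 * s ^ 3 * |x| ≥ 3 / 2 * s ^ 2 * x ^ 2 - 1 / 6 * x ^ 4 := by
  set c := Real.sqrt 3 with hc
  have hc2 : c ^ 2 = 3 := Real.sq_sqrt (by norm_num)
  have hc0 : 0 < c := Real.sqrt_pos.2 (by norm_num)
  have hx2 : x ^ 2 = |x| ^ 2 := (sq_abs x).symm
  have hx4 : x ^ 4 = |x| ^ 4 := by
    rw [show (4 : ℕ) = 2 * 2 from rfl, pow_mul, pow_mul, hx2]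
  rw [hx2, hx4]
  have hu : 0 ≤ |x| := abs_nonneg x
  generalize |x| = u at hu
  -- the difference is a product
  have key : c * s ^ 3 * u - (3 / 2 * s ^ 2 * u ^ 2 - 1 / 6 * u ^ 4) =
      1 / 6 * u * ((u - c * s) ^ 2 * (u + 2 * c * s)) := by
    have h3 : c ^ 3 = 3 * c := by rw [pow_succ, hc2]
    have e : 1 / 6 * u * ((u - c * s) ^ 2 * (u + 2 * c * s)) =
        1 / 6 * u ^ 4 - 1 / 2 * c ^ 2 * s ^ 2 * u ^ 2 + 1 / 3 * c ^ 3 * s ^ 3 * u := by ring
    rw [e, h3, hc2]
    ring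
  have h7 : 0 ≤ 1 / 6 * u * ((u - c * s) ^ 2 * (u + 2 * c * s)) := by positivity
  linarith

theorem sKhl : SKhl := by
  intro n S a
  obtain ⟨h2, h4⟩ := KHL_moments n a S
  set Q := ∑ i ∈ S, a i ^ 2 with hQ
  have hQ0 : 0 ≤ Q := Finset.sum_nonneg fun i _ => sq_nonneg _
  set s := Real.sqrt Q with hs
  have hs0 : 0 ≤ s := Real.sqrt_nonneg _
  have hs2 : s ^ 2 = Q := Real.sq_sqrt hQ0
  unfold avg
  have hp : (0 : ℝ) < 2 ^ n := by positivity
  rcases hs0.eq_or_lt with h0 | h0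
  · rw [← h0]
    have : 0 ≤ ∑ e : Fin n → Bool, |∑ i ∈ S, sg (e i) * a i| :=
      Finset.sum_nonneg fun e _ => abs_nonneg _
    positivity
  · have h5 : ∑ e : Fin n → Bool, (3 / 2 * s ^ 2 * (∑ i ∈ S, sg (e i) * a i) ^ 2 -
        1 / 6 * (∑ i ∈ S, sg (e i) * a i) ^ 4) ≤
        ∑ e : Fin n → Bool, Real.sqrt 3 * s ^ 3 * |∑ i ∈ S, sg (e i) * a i| :=
      Finset.sum_le_sum fun e _ => KHL_pt _ s h0
    rw [Finset.sum_sub_distrib, ← Finset.mul_sum, ← Finset.mul_sum, ← Finset.mul_sum, h2] at h5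
    set T := ∑ e : Fin n → Bool, |∑ i ∈ S, sg (e i) * a i| with hT
    have h6 : 2 ^ n * s ^ 4 ≤ Real.sqrt 3 * s ^ 3 * T := by
      have h8 : Q ^ 2 = s ^ 4 := by rw [← hs2]; ring
      rw [h8] at h4
      rw [← hs2] at h5
      nlinarith
    have h9 : 2 ^ n * s ≤ Real.sqrt 3 * T := by
      have h10 : s ^ 3 * (2 ^ n * s) ≤ s ^ 3 * (Real.sqrt 3 * T) := by nlinarith
      exact le_of_mul_le_mul_left h10 (by positivity)
    rw [mul_div_assoc', le_div_iff₀ hp]
    linarith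

end Pool.PRP
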